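import Pool.Agent.Y335.FL.Ahl

set_option autoImplicit false
set_option linter.unusedSectionVars false

/-!
# The sum of the degrees over a ball in a graph of girth at least twelve

In a graph of girth at least twelve and degrees at least three the sum of the degrees over a ball of
radius `r` around a vertex is at most `(3 * 2 ^ r - 2) / 126` of the sum of all degrees, and for a
ball around an edge it is at most `(4 * 2 ^ r - 2) / 126` of it.
-/

namespace Pool.Agent.L0h99.BC

open Finset Pool.Agent.TH676.Z Pool.Agent.Y335.FL Pool.Agent.Y335.FL.Ahl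

variable {V : Type} [Fintype V] [DecidableEq V] {G : SimpleGraph V} [DecidableRel G.Adj]

/-- the sum of the degrees -/
def M (G : SimpleGraph V) [DecidableRel G.Adj] (A : Finset V) : ℕ := ∑ w ∈ A, G.degree w

lemma M_union_le (A B : Finset V) : M G (A ∪ B) ≤ M G A + M G B := by
  unfold M
  have h := sum_union_inter (s₁ := A) (s₂ := B) (f := fun w => G.degree w)
  omega

lemma M_biUnion_le {ι : Type} [DecidableEq ι] (s : Finset ι) (f : ι → Finset V) :
    M G (s.biUnion f) ≤ ∑ i ∈ s, M G (f i) := by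
  classical
  induction s using Finset.induction_on with
  | empty => simp [M]
  | insert a s ha ih =>
    rw [biUnion_insert, sum_insert ha]
    exact (M_union_le _ _).trans (Nat.add_le_add_left ih _)

lemma M_mono {A B : Finset V} (h : A ⊆ B) : M G A ≤ M G B :=
  sum_le_sum_of_subset h

lemma T_one {x y : V} (h : G.Adj x y) (hg : Girth G.Adj 12) : T G 1 x y + 1 = G.degree y := by
  have h1 := T_succ hg (i := 0) (by omega) h
  rw [zero_add] at h1
  rw [h1]
  have h2 : ∀ u ∈ (G.neighborFinset y).erase x, T G 0 y u = 1 := by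
    intro u hu
    rw [mem_erase, G.mem_neighborFinset] at hu
    exact T_zero hu.2
  rw [sum_congr rfl h2, sum_const, smul_eq_mul, mul_one,
    card_erase_of_mem ((G.mem_neighborFinset y x).2 h.symm), G.card_neighborFinset_eq_degree]
  have h3 : 0 < G.degree y := (G.degree_pos_iff_exists_adj y).2 ⟨x, h.symm⟩
  omega

/-- the sum of the degrees over a level -/
lemma mass_S (hg : Girth G.Adj 12) : ∀ i ≤ 4, ∀ x y : V, G.Adj x y →
    M G (S G i x y) = T G i x y + T G (i + 1) x y := by
  intro i
  induction i with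
  | zero =>
    intro _ x y h
    rw [S_zero h, T_zero h]
    unfold M
    rw [sum_singleton, ← T_one h hg]
    ring
  | succ i ih =>
    intro hi x y h
    have h1 : M G (S G (i + 1) x y) = ∑ u ∈ (G.neighborFinset y).erase x, M G (S G i y u) := by
      unfold M
      rw [S_succ h, sum_biUnion]
      intro u _ u' _ huu
      exact disj_C hg (by omega) huu
    rw [h1, T_succ hg (by omega) h, T_succ hg (by omega) h, ← sum_add_distrib]
    refine sum_congr rfl fun u hu => ?_
    rw [mem_erase, G.mem_neighborFinset] at hu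
    exact ih (by omega) y u hu.2

/-- the levels grow -/
lemma T_two (hg : Girth G.Adj 12) (hd : ∀ x y, G.Adj x y → 3 ≤ G.degree x) :
    ∀ i ≤ 4, ∀ x y : V, G.Adj x y → 2 * T G i x y ≤ T G (i + 1) x y := by
  intro i
  induction i with
  | zero =>
    intro _ x y h
    rw [T_zero h, zero_add]
    have h1 := T_one h hg
    have h2 := hd y x h.symm
    omega
  | succ i ih =>
    intro hi x y h
    rw [T_succ hg (by omega) h, T_succ hg (i := i + 1) (by omega) h, mul_sum]
    refine sum_le_sum fun u hu => ?_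
    rw [mem_erase, G.mem_neighborFinset] at hu
    exact ih (by omega) y u hu.2

lemma mem_S_adj {i : ℕ} {x y w : V} (h : w ∈ S G i x y) : ∃ z, G.Adj w z := by
  obtain ⟨v, hv, _, _, h3⟩ := mem_S.1 h
  exact ⟨v i, by rw [← h3]; exact (hv.adj i le_rfl).symm⟩

lemma mass_five (hd : ∀ x y, G.Adj x y → 3 ≤ G.degree x) (i : ℕ) (x y : V) :
    3 * T G i x y ≤ M G (S G i x y) := by
  unfold M T
  rw [mul_comm, ← smul_eq_mul, ← sum_const]
  refine sum_le_sum fun w hw => ?_
  obtain ⟨z, hz⟩ := mem_S_adj hw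
  exact hd w z hz

/-- `z` is not on a level -/
lemma not_mem_S (hg : Girth G.Adj 12) {i : ℕ} (hi : i ≤ 5) {z a : V} : z ∉ S G i z a := by
  intro h
  obtain ⟨v, hv, h0, _, h3⟩ := mem_S.1 h
  exact hv.ne (fun a => G.loopless.irrefl a) hg (by omega) 0 (i + 1) (by omega) le_rfl
    (h0.trans h3.symm)

/-- the ball of radius five around `z` -/
noncomputable def A5 (G : SimpleGraph V) [DecidableRel G.Adj] (z : V) : Finset V :=
  insert z ((G.neighborFinset z).biUnion fun a => (range 5).biUnion fun i => S G i z a)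

lemma M_A5 (hg : Girth G.Adj 12) (z : V) :
    M G (A5 G z) = G.degree z + ∑ a ∈ G.neighborFinset z, ∑ i ∈ range 5, M G (S G i z a) := by
  unfold A5
  have hz : z ∉ (G.neighborFinset z).biUnion fun a => (range 5).biUnion fun i => S G i z a := by
    intro h
    obtain ⟨a, ha, h⟩ := mem_biUnion.1 h
    obtain ⟨i, hi, h⟩ := mem_biUnion.1 h
    exact not_mem_S hg (by have := mem_range.1 hi; omega) h
  unfold M
  rw [sum_insert hz, sum_biUnion]
  · congr 1
    refine sum_congr rfl fun a ha => ?_
    rw [sum_biUnion]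
    intro i hi j hj hij
    have hi' : i < 5 := mem_range.1 hi
    have hj' : j < 5 := mem_range.1 hj
    rw [G.mem_neighborFinset] at ha
    rcases lt_or_gt_of_ne hij with h2 | h2
    · exact disj_E hg i j h2 (by omega) z a ha
    · exact (disj_E hg j i h2 (by omega) z a ha).symm
  · intro a _ b _ hab
    change Disjoint ((range 5).biUnion fun i => S G i z a) ((range 5).biUnion fun i => S G i z b)
    rw [disjoint_biUnion_left]
    intro i hi
    rw [disjoint_biUnion_right]
    intro j hj
    have hi' : i < 5 := mem_range.1 hi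
    have hj' : j < 5 := mem_range.1 hj
    exact disj_C hg (by omega) hab

/-- the sixth level is outside -/
lemma S5_out (hg : Girth G.Adj 12) {z a : V} (ha : G.Adj z a) : Disjoint (S G 5 z a) (A5 G z) := by
  unfold A5
  rw [disjoint_insert_right]
  refine ⟨not_mem_S hg le_rfl, ?_⟩
  rw [disjoint_biUnion_right]
  intro b hb
  rw [disjoint_biUnion_right]
  intro i hi
  have hi' : i < 5 := mem_range.1 hi
  by_cases h : a = b
  · subst h
    exact (disj_E hg i 5 hi' le_rfl z a ha).symm
  · exact disj_C hg (by omega) h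

/-- the degrees outside the ball -/
lemma M_out (hg : Girth G.Adj 12) (z : V) :
    ∑ a ∈ G.neighborFinset z, T G 5 z a ≤ M G (A5 G z)ᶜ := by
  classical
  have h1 : ∑ a ∈ G.neighborFinset z, T G 5 z a =
      ∑ w ∈ (A5 G z)ᶜ, ((G.neighborFinset z).filter (fun a => w ∈ S G 5 z a)).card := by
    have h2 : ∀ a ∈ G.neighborFinset z, T G 5 z a =
        ∑ w ∈ (A5 G z)ᶜ, if w ∈ S G 5 z a then 1 else 0 := by
      intro a ha
      rw [G.mem_neighborFinset] at ha
      rw [← sum_filter, sum_const, smul_eq_mul, mul_one, T]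
      congr 1
      ext w
      rw [mem_filter, mem_compl]
      exact ⟨fun h => ⟨disjoint_left.1 (S5_out hg ha) h, h⟩, fun h => h.2⟩
    rw [sum_congr rfl h2, sum_comm]
    refine sum_congr rfl fun w _ => ?_
    rw [card_filter]
  rw [h1]
  unfold M
  refine sum_le_sum fun w _ => ?_
  -- the last vertex before `w`
  have h3 : ∀ a : V, ∃ p : V, w ∈ S G 5 z a → G.Adj w p ∧ p ∈ S G 4 z a := by
    intro a
    by_cases h : w ∈ S G 5 z a
    · obtain ⟨v, hv, h4, h5, h6⟩ := mem_S.1 h
      refine ⟨v 5, fun _ => ⟨by rw [← h6]; exact (hv.adj 5 le_rfl).symm, mem_S.2 ⟨v, ?_, h4, h5, rfl⟩⟩⟩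
      exact ⟨fun k hk => hv.adj k (by omega), fun k hk => hv.nb k (by omega)⟩
    · exact ⟨w, fun h' => absurd h' h⟩
  choose p hp using h3
  rw [← G.card_neighborFinset_eq_degree]
  refine card_le_card_of_injOn p ?_ ?_
  · intro a ha
    have ha' := mem_filter.1 (mem_coe.1 ha)
    exact mem_coe.2 ((G.mem_neighborFinset w _).2 (hp a ha'.2).1)
  · intro a ha b hb hab
    have ha' := (hp a (mem_filter.1 (mem_coe.1 ha)).2).2
    have hb' := (hp b (mem_filter.1 (mem_coe.1 hb)).2).2
    by_contra hne
    rw [hab] at ha'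
    exact disjoint_left.1 (disj_C hg (i := 4) (j := 4) (by omega) hne) ha' hb'

/-- the vertices in the ball of radius `r` around `z` -/
def InB (G : SimpleGraph V) (r : ℕ) (z w : V) : Prop := ∃ p : G.Walk z w, p.length ≤ r

lemma rch_of_path {z w : V} (p : G.Walk z w) (hp : p.IsPath) (h : 0 < p.length) :
    G.Adj z (p.getVert 1) ∧ w ∈ S G (p.length - 1) z (p.getVert 1) := by
  have h0 := p.adj_getVert_succ (i := 0) h
  rw [p.getVert_zero] at h0
  refine ⟨h0, mem_S.2 ⟨p.getVert, ⟨fun k hk => p.adj_getVert_succ (by omega), fun k hk he => ?_⟩,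
    p.getVert_zero, rfl, by rw [Nat.sub_add_cancel h, p.getVert_length]⟩⟩
  have h2 := hp.getVert_injOn (show k ∈ {i | i ≤ p.length} by
    simp only [Set.mem_ofPred_eq]; omega) (show k + 2 ∈ {i | i ≤ p.length} by
    simp only [Set.mem_ofPred_eq]; omega) he
  omega

/-- the ball is contained in the union of the levels -/
lemma ball_sub {z w : V} {r : ℕ} (h : InB G r z w) :
    w = z ∨ ∃ a, G.Adj z a ∧ ∃ i < r, w ∈ S G i z a := by
  classical
  obtain ⟨p, hp⟩ := h
  by_cases h0 : p.bypass.length = 0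
  · left
    exact (SimpleGraph.Walk.eq_of_length_eq_zero h0).symm
  · right
    have h1 := p.length_bypass_le_length
    obtain ⟨h2, h3⟩ := rch_of_path p.bypass p.bypass_isPath (Nat.pos_of_ne_zero h0)
    exact ⟨_, h2, p.bypass.length - 1, by omega, h3⟩

theorem arV (n : ℕ → ℕ) (m : ℕ → ℕ) (h0 : n 0 = 1) (t : ∀ i ≤ 4, 2 * n i ≤ n (i + 1))
    (hm : ∀ i ≤ 4, m i = n i + n (i + 1)) {r : ℕ} (hr : r ≤ 5) :
    126 * (1 + ∑ i ∈ range r, m i) ≤ (3 * 2 ^ r - 2) * (1 + ∑ i ∈ range 5, m i + n 5) := by
  have t0 := t 0 (by norm_num)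
  have t1 := t 1 (by norm_num)
  have t2 := t 2 (by norm_num)
  have t3 := t 3 (by norm_num)
  have t4 := t 4 (by norm_num)
  simp only [zero_add, Nat.reduceAdd] at t0 t1 t2 t3 t4
  have m0 := hm 0 (by norm_num)
  have m1 := hm 1 (by norm_num)
  have m2 := hm 2 (by norm_num)
  have m3 := hm 3 (by norm_num)
  have m4 := hm 4 (by norm_num)
  simp only [zero_add, Nat.reduceAdd] at m0 m1 m2 m3 m4
  clear t hm
  rcases (show r = 0 ∨ r = 1 ∨ r = 2 ∨ r = 3 ∨ r = 4 ∨ r = 5 by omega) with
    rfl | rfl | rfl | rfl | rfl | rfl <;>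
  simp only [sum_range_succ, sum_range_zero, m0, m1, m2, m3, m4, zero_add] <;>
  norm_num <;> linarith

theorem arE (n : ℕ → ℕ) (m : ℕ → ℕ) (t : ∀ i ≤ 4, 2 * n i ≤ n (i + 1))
    (hm : ∀ i ≤ 4, m i = n i + n (i + 1)) (h5 : 3 * n 5 ≤ m 5) {r : ℕ} (hr : r ≤ 4) :
    126 * ∑ i ∈ range (r + 1), m i ≤ (4 * 2 ^ r - 2) * ∑ i ∈ range 6, m i := by
  have t0 := t 0 (by norm_num)
  have t1 := t 1 (by norm_num)
  have t2 := t 2 (by norm_num)
  have t3 := t 3 (by norm_num)
  have t4 := t 4 (by norm_num)
  simp only [zero_add, Nat.reduceAdd] at t0 t1 t2 t3 t4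
  have m0 := hm 0 (by norm_num)
  have m1 := hm 1 (by norm_num)
  have m2 := hm 2 (by norm_num)
  have m3 := hm 3 (by norm_num)
  have m4 := hm 4 (by norm_num)
  simp only [zero_add, Nat.reduceAdd] at m0 m1 m2 m3 m4
  clear t hm
  rcases (show r = 0 ∨ r = 1 ∨ r = 2 ∨ r = 3 ∨ r = 4 by omega) with
    rfl | rfl | rfl | rfl | rfl <;>
  simp only [sum_range_succ, sum_range_zero, m0, m1, m2, m3, m4, zero_add] <;>
  norm_num <;> linarith

/-- balls around vertices -/
theorem ball (hg : Girth G.Adj 12) (hd : ∀ x y, G.Adj x y → 3 ≤ G.degree x) {r : ℕ} (hr : r ≤ 5)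
    (z : V) (B : Finset V) (hB : ∀ w ∈ B, InB G r z w) :
    126 * M G B ≤ (3 * 2 ^ r - 2) * M G univ := by
  classical
  have h1 : M G B ≤ G.degree z + ∑ a ∈ G.neighborFinset z, ∑ i ∈ range r, M G (S G i z a) := by
    have h2 : B ⊆ insert z ((G.neighborFinset z).biUnion fun a =>
        (range r).biUnion fun i => S G i z a) := by
      intro w hw
      rcases ball_sub (hB w hw) with h | ⟨a, ha, i, hi, h⟩
      · rw [h]; exact mem_insert_self _ _
      · exact mem_insert_of_mem (mem_biUnion.2 ⟨a, (G.mem_neighborFinset z a).2 ha,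
          mem_biUnion.2 ⟨i, mem_range.2 hi, h⟩⟩)
    refine (M_mono h2).trans ?_
    rw [insert_eq]
    refine (M_union_le _ _).trans ?_
    refine Nat.add_le_add (by simp [M]) ?_
    refine (M_biUnion_le _ _).trans (sum_le_sum fun a _ => M_biUnion_le _ _)
  have h2 : G.degree z + ∑ a ∈ G.neighborFinset z, ∑ i ∈ range 5, M G (S G i z a) +
      ∑ a ∈ G.neighborFinset z, T G 5 z a ≤ M G univ := by
    rw [← M_A5 hg z]
    have h3 := M_out hg z
    have h4 : M G univ = M G (A5 G z) + M G (A5 G z)ᶜ := by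
      unfold M
      exact (sum_add_sum_compl _ _).symm
    omega
  have h3 : G.degree z = ∑ a ∈ G.neighborFinset z, 1 := by
    rw [sum_const, smul_eq_mul, mul_one, G.card_neighborFinset_eq_degree]
  rw [h3, ← sum_add_distrib] at h1
  rw [h3, ← sum_add_distrib, ← sum_add_distrib] at h2
  refine (Nat.mul_le_mul_left 126 h1).trans (le_trans ?_ (Nat.mul_le_mul_left _ h2))
  rw [mul_sum, mul_sum]
  refine sum_le_sum fun a ha => ?_
  rw [G.mem_neighborFinset] at ha
  have h4 := arV (fun i => T G i z a) (fun i => M G (S G i z a)) (T_zero ha)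
    (fun i hi => T_two hg hd i hi z a ha) (fun i hi => mass_S hg i hi z a ha) hr
  exact h4

/-- balls around edges -/
theorem edgeBall (hg : Girth G.Adj 12) (hd : ∀ x y, G.Adj x y → 3 ≤ G.degree x) {r : ℕ}
    (hr : r ≤ 4) {x y : V} (hxy : G.Adj x y) (B : Finset V)
    (hB : ∀ w ∈ B, InB G r x w ∨ InB G r y w) :
    126 * M G B ≤ (4 * 2 ^ r - 2) * M G univ := by
  classical
  have key : ∀ x y w : V, G.Adj x y → InB G r y w → ∃ i < r + 1, w ∈ S G i x y ∪ S G i y x := by
    intro x y w hxy h
    obtain ⟨p, hp⟩ := h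
    have h1 := p.length_bypass_le_length
    by_cases h0 : p.bypass.length = 0
    · refine ⟨0, by omega, mem_union_left _ ?_⟩
      rw [S_zero hxy, mem_singleton]
      exact (SimpleGraph.Walk.eq_of_length_eq_zero h0).symm
    · obtain ⟨h2, h3⟩ := rch_of_path p.bypass p.bypass_isPath (Nat.pos_of_ne_zero h0)
      by_cases h4 : p.bypass.getVert 1 = x
      · rw [h4] at h3
        exact ⟨p.bypass.length - 1, by omega, mem_union_right _ h3⟩
      · refine ⟨p.bypass.length, by omega, mem_union_left _ ?_⟩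
        obtain ⟨k, hk⟩ : ∃ k, p.bypass.length = k + 1 := ⟨p.bypass.length - 1, by omega⟩
        rw [hk, Nat.add_sub_cancel] at h3
        rw [hk, S_succ hxy, mem_biUnion]
        exact ⟨_, mem_erase.2 ⟨h4, (G.mem_neighborFinset y _).2 h2⟩, h3⟩
  have h1 : M G B ≤ ∑ i ∈ range (r + 1), (M G (S G i x y) + M G (S G i y x)) := by
    have h2 : B ⊆ (range (r + 1)).biUnion fun i => S G i x y ∪ S G i y x := by
      intro w hw
      rw [mem_biUnion]
      rcases hB w hw with h | h
      · obtain ⟨i, hi, h⟩ := key y x w hxy.symm h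
        exact ⟨i, mem_range.2 hi, by rw [union_comm]; exact h⟩
      · obtain ⟨i, hi, h⟩ := key x y w hxy h
        exact ⟨i, mem_range.2 hi, h⟩
    exact (M_mono h2).trans ((M_biUnion_le _ _).trans (sum_le_sum fun i _ => M_union_le _ _))
  have h2 : ∑ i ∈ range 6, (M G (S G i x y) + M G (S G i y x)) ≤ M G univ := by
    have h3 : ∑ i ∈ range 6, (M G (S G i x y) + M G (S G i y x)) =
        M G ((range 6).biUnion (fun i => S G i x y ∪ S G i y x)) := by
      unfold M
      rw [sum_biUnion]
      · refine sum_congr rfl fun i hi => ?_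
        rw [mem_range] at hi
        rw [sum_union (disj_D hg (by omega))]
      · intro i hi j hj hij
        have hi' : i < 6 := mem_range.1 hi
        have hj' : j < 6 := mem_range.1 hj
        have key : ∀ x y : V, G.Adj x y → Disjoint (S G i x y) (S G j x y) := by
          intro x y hxy
          rcases lt_or_gt_of_ne hij with h2 | h2
          · exact disj_E hg i j h2 (by omega) x y hxy
          · exact (disj_E hg j i h2 (by omega) x y hxy).symm
        change Disjoint (S G i x y ∪ S G i y x) (S G j x y ∪ S G j y x)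
        rw [disjoint_union_left, disjoint_union_right, disjoint_union_right]
        exact ⟨⟨key x y hxy, disj_D hg (by omega)⟩, ⟨disj_D hg (by omega), key y x hxy.symm⟩⟩
    rw [h3]
    exact M_mono (subset_univ _)
  refine (Nat.mul_le_mul_left 126 h1).trans (le_trans ?_ (Nat.mul_le_mul_left _ h2))
  refine arE (fun i => T G i x y + T G i y x) (fun i => M G (S G i x y) + M G (S G i y x))
    (fun i hi => ?_) (fun i hi => ?_) ?_ hr
  · have h3 := T_two hg hd i hi x y hxy
    have h4 := T_two hg hd i hi y x hxy.symm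
    omega
  · have h3 := mass_S hg i hi x y hxy
    have h4 := mass_S hg i hi y x hxy.symm
    omega
  · have h3 := mass_five hd 5 x y
    have h4 := mass_five hd 5 y x
    omega

end Pool.Agent.L0h99.BC
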