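import Pool.Agent.Y358.IN.Ind
import Pool.Agent.L0h65.TL.Cls
import Pool.Agent.L0h99.BC.Mass

set_option autoImplicit false
set_option linter.unusedSectionVars false

/-!
# Graphs covered by few balls

The class of the graphs whose vertices of degree at least three are covered by balls around vertices
and edges with total volume at most 125, where the volume is the number of the vertices of a ball of
the same radius in the cubic tree.
-/

namespace Pool.Agent.L0h99.BC

open Finset Pool.Agent.TH676.Z Pool.Agent.Y335.FL Pool.Agent.Y358.IN Pool.Agent.L0h65.TL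

/-- the number of the vertices of the ball of radius `r` around a vertex (`x = y`) or an edge of the
cubic tree -/
def vol {V : Type} [DecidableEq V] (x y : V) (r : ℕ) : ℕ :=
  if x = y then 3 * 2 ^ r - 2 else 4 * 2 ^ r - 2

section

variable {V E : Type} [Fintype V] [DecidableEq V] [Fintype E] [DecidableEq E]

/-- the class -/
def Cov (ι : Type) [Fintype ι] (src dst : E → V) : Prop :=
  ∃ (x y : ι → V) (r : ι → ℕ), (∀ j, x j = y j ∨ Adj src dst (x j) (y j)) ∧
    (∀ v, 3 ≤ dg src dst v →
      ∃ j, Within src dst (r j) v (x j) ∨ Within src dst (r j) v (y j)) ∧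
    ∑ j, vol (x j) (y j) (r j) ≤ 125

theorem vol_map (f : V → V) (x y : V) (r : ℕ) : vol (f x) (f y) r ≤ vol x y r := by
  unfold vol
  by_cases h : x = y
  · rw [if_pos h, if_pos (congrArg f h)]
  · rw [if_neg h]
    by_cases h1 : f x = f y
    · rw [if_pos h1]
      have : 0 < 2 ^ r := by positivity
      omega
    · rw [if_neg h1]

theorem ccCov (ι : Type) [Fintype ι] : CC (V := V) (E := E) (Cov ι) := by
  intro src dst e h hne
  obtain ⟨x, y, r, h1, h2, h3⟩ := h
  set u := src e with hu
  set v := dst e with hv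
  refine ⟨fun j => ctr u v (x j), fun j => ctr u v (y j), r, fun j => adj_ctr_or (h1 j), ?_,
    le_trans (sum_le_sum fun j _ => vol_map (ctr u v) _ _ _) h3⟩
  intro w hw
  have hwv : w ≠ v := by
    intro h
    rw [h, Ord.dg_ctr_v src dst hne] at hw
    omega
  obtain ⟨z, hz, hzd⟩ : ∃ z, ctr u v z = w ∧ 3 ≤ dg src dst z := by
    by_cases hwu : w = u
    · have h4 : dg (ctr u v ∘ src) (ctr u v ∘ dst) u + 2 ≤ dg src dst u + dg src dst v :=
        Ord.dg_ctr_u src dst e hne
      rw [hwu] at hw
      by_cases h5 : 3 ≤ dg src dst u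
      · exact ⟨u, by rw [hwu]; exact ctr_u _ _ hne, h5⟩
      · exact ⟨v, by rw [hwu]; exact ctr_v _ _, by omega⟩
    · exact ⟨w, ctr_of_ne hwv, hw.trans (Ord.dg_ctr_other src dst hwu)⟩
  obtain ⟨j, hj⟩ := h2 z hzd
  refine ⟨j, ?_⟩
  rw [← hz]
  rcases hj with hj | hj
  · exact Or.inl (hj.ctr u v)
  · exact Or.inr (hj.ctr u v)

/-- **Main step.** -/
theorem flow_of_Cov (hc : St_contract) {ι : Type} [Fintype ι] {src dst : E → V}
    (hcl : Cov ι src dst) (hbr : Br src dst ∅ ∅) : FlowOn src dst ∅ ∅ := by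
  classical
  by_contra hn
  obtain ⟨s, d, ⟨x, y, r, h1, h2, h3⟩, hM⟩ := exists_minC (ccCov ι) src dst hcl hbr hn
  have ht := threeC hc hM
  have hgi := girthC hc hM
  by_cases hl : ∀ e, s e = d e
  · exact hM.nf (flow_of_loops hl)
  push Not at hl
  obtain ⟨e, he⟩ := hl
  let G : SimpleGraph V :=
    { Adj := Adj s d
      symm := ⟨fun a b h => GiAux.adj_symm h⟩
      loopless := ⟨fun a h => h.1 rfl⟩ }
  have hG : ∀ a b, G.Adj a b ↔ Adj s d a b := fun a b => Iff.rfl
  have hg : Girth G.Adj 12 := hgi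
  have hd : ∀ a b, G.Adj a b → 3 ≤ G.degree a := by
    intro a b hab
    obtain ⟨z1, z2, z3, a1, a2, a3, n1, n2, n3⟩ := ht a b hab
    rw [← G.card_neighborFinset_eq_degree]
    have h4 : ({z1, z2, z3} : Finset V) ⊆ G.neighborFinset a := by
      intro w hw
      rw [G.mem_neighborFinset]
      simp only [mem_insert, mem_singleton] at hw
      rcases hw with rfl | rfl | rfl
      · exact a1
      · exact a2
      · exact a3
    calc 3 = ({z1, z2, z3} : Finset V).card := by
          rw [card_insert_of_notMem (by simp [n1, n2]), card_pair n3]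
      _ ≤ _ := card_le_card h4
  -- the balls
  let B : ι → Finset V := fun j => univ.filter fun w => InB G (r j) (x j) w ∨ InB G (r j) (y j) w
  have hvol : ∀ j, vol (x j) (y j) (r j) ≤ 125 := fun j =>
    (single_le_sum (f := fun j => vol (x j) (y j) (r j)) (fun _ _ => Nat.zero_le _)
      (mem_univ j)).trans h3
  have hB : ∀ j, 126 * M G (B j) ≤ vol (x j) (y j) (r j) * M G univ := by
    intro j
    have h4 := hvol j
    by_cases hxy : x j = y j
    · have h5 : vol (x j) (y j) (r j) = 3 * 2 ^ r j - 2 := by unfold vol; rw [if_pos hxy]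
      rw [h5] at h4 ⊢
      have h6 : r j ≤ 5 := by
        by_contra hcon
        have h7 : 2 ^ 6 ≤ 2 ^ r j := Nat.pow_le_pow_right (by norm_num) (by omega)
        omega
      refine ball hg hd h6 (x j) (B j) fun w hw => ?_
      rcases (mem_filter.1 hw).2 with h | h
      · exact h
      · rw [hxy]; exact h
    · have h5 : vol (x j) (y j) (r j) = 4 * 2 ^ r j - 2 := by unfold vol; rw [if_neg hxy]
      rw [h5] at h4 ⊢
      have h6 : r j ≤ 4 := by
        by_contra hcon
        have h7 : 2 ^ 5 ≤ 2 ^ r j := Nat.pow_le_pow_right (by norm_num) (by omega)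
        omega
      have h7 : G.Adj (x j) (y j) := (h1 j).resolve_left hxy
      exact edgeBall hg hd h6 h7 (B j) fun w hw => (mem_filter.1 hw).2
  have hcov : M G univ ≤ ∑ j, M G (B j) := by
    have h4 : M G univ ≤ M G (univ.biUnion B) := by
      unfold M
      refine sum_le_sum_of_ne_zero fun w _ hw => ?_
      obtain ⟨z, hz⟩ := (G.degree_pos_iff_exists_adj w).1 (Nat.pos_of_ne_zero hw)
      obtain ⟨j, hj⟩ := h2 w (Ord.three_dg ht hz)
      refine mem_biUnion.2 ⟨j, mem_univ _, mem_filter.2 ⟨mem_univ _, ?_⟩⟩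
      rcases hj with hj | hj
      · obtain ⟨p, hp⟩ := hj.walk hG
        exact Or.inl ⟨p.reverse, by rw [SimpleGraph.Walk.length_reverse]; exact hp⟩
      · obtain ⟨p, hp⟩ := hj.walk hG
        exact Or.inr ⟨p.reverse, by rw [SimpleGraph.Walk.length_reverse]; exact hp⟩
    exact h4.trans (M_biUnion_le _ _)
  have h5 : 126 * M G univ ≤ 125 * M G univ := by
    calc 126 * M G univ ≤ 126 * ∑ j, M G (B j) := Nat.mul_le_mul_left _ hcov
      _ = ∑ j, 126 * M G (B j) := mul_sum _ _ _
      _ ≤ ∑ j, vol (x j) (y j) (r j) * M G univ := sum_le_sum fun j _ => hB j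
      _ = (∑ j, vol (x j) (y j) (r j)) * M G univ := (sum_mul _ _ _).symm
      _ ≤ 125 * M G univ := Nat.mul_le_mul_right _ h3
  have h6 : 0 < M G univ := by
    have h7 : 0 < G.degree (s e) :=
      (G.degree_pos_iff_exists_adj _).2 ⟨d e, he, e, Or.inl ⟨rfl, rfl⟩⟩
    exact h7.trans_le (single_le_sum (f := fun w => G.degree w) (fun _ _ => Nat.zero_le _)
      (mem_univ (s e)))
  omega

end

end Pool.Agent.L0h99.BC
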