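import Pool.Agent.L0h99.BC.Cls

set_option autoImplicit false
set_option linter.unusedSectionVars false

/-!
# Graphs covered by few balls, fractional version

The class of the graphs whose vertices of degree at least three are covered fractionally by balls
around vertices and edges with total volume less than 126.
-/

namespace Pool.Agent.L0h99.BC

open Finset Pool.Agent.TH676.Z Pool.Agent.Y335.FL Pool.Agent.Y358.IN Pool.Agent.L0h65.TL

section

variable {V E : Type} [Fintype V] [DecidableEq V] [Fintype E] [DecidableEq E]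

open Classical in
/-- the class -/
def CovW (ι : Type) [Fintype ι] (w : ι → ℝ) (src dst : E → V) : Prop :=
  ∃ (x y : ι → V) (r : ι → ℕ), (∀ j, x j = y j ∨ Adj src dst (x j) (y j)) ∧
    (∀ v, 3 ≤ dg src dst v →
      1 ≤ ∑ j, if Within src dst (r j) v (x j) ∨ Within src dst (r j) v (y j) then w j else 0) ∧
    ∑ j, w j * (vol (x j) (y j) (r j) : ℝ) < 126

theorem ccCovW (ι : Type) [Fintype ι] (wt : ι → ℝ) (hwt : ∀ j, 0 ≤ wt j) :
    CC (V := V) (E := E) (CovW ι wt) := by
  classical
  intro src dst e h hne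
  obtain ⟨x, y, r, h1, h2, h3⟩ := h
  set u := src e with hu
  set v := dst e with hv
  refine ⟨fun j => ctr u v (x j), fun j => ctr u v (y j), r, fun j => adj_ctr_or (h1 j), ?_,
    lt_of_le_of_lt (sum_le_sum fun j _ => mul_le_mul_of_nonneg_left
      (Nat.cast_le.2 (vol_map (ctr u v) _ _ _)) (hwt j)) h3⟩
  intro w hw
  have hwv : w ≠ v := by
    intro h
    rw [h, Ord.dg_ctr_v src dst hne] at hw
    omega
  obtain ⟨z, hz, hzd⟩ : ∃ z, ctr u v z = w ∧ 3 ≤ dg src dst z := by
    by_cases hwu : w = u
    · have h4 : dg (ctr u v ∘ src) (ctr u v ∘ dst) u + 2 ≤ dg src dst u + dg src dst v :=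
        Ord.dg_ctr_u src dst e hne
      rw [hwu] at hw
      by_cases h5 : 3 ≤ dg src dst u
      · exact ⟨u, by rw [hwu]; exact ctr_u _ _ hne, h5⟩
      · exact ⟨v, by rw [hwu]; exact ctr_v _ _, by omega⟩
    · exact ⟨w, ctr_of_ne hwv, hw.trans (Ord.dg_ctr_other src dst hwu)⟩
  refine (h2 z hzd).trans (sum_le_sum fun j _ => ?_)
  by_cases h6 : Within src dst (r j) z (x j) ∨ Within src dst (r j) z (y j)
  · have h7 : Within (ctr u v ∘ src) (ctr u v ∘ dst) (r j) w (ctr u v (x j)) ∨
        Within (ctr u v ∘ src) (ctr u v ∘ dst) (r j) w (ctr u v (y j)) := by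
      rw [← hz]
      rcases h6 with h6 | h6
      · exact Or.inl (h6.ctr u v)
      · exact Or.inr (h6.ctr u v)
    rw [if_pos h6, if_pos h7]
  · rw [if_neg h6]
    split_ifs
    · exact hwt j
    · exact le_rfl

/-- **Main step.** -/
theorem flow_of_CovW (hc : St_contract) {ι : Type} [Fintype ι] (wt : ι → ℝ) (hwt : ∀ j, 0 ≤ wt j)
    {src dst : E → V} (hcl : CovW ι wt src dst) (hbr : Br src dst ∅ ∅) : FlowOn src dst ∅ ∅ := by
  classical
  by_contra hn
  obtain ⟨s, d, ⟨x, y, r, h1, h2, h3⟩, hM⟩ := exists_minC (ccCovW ι wt hwt) src dst hcl hbr hn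
  have ht := threeC hc hM
  have hgi := girthC hc hM
  by_cases hl : ∀ e, s e = d e
  · exact hM.nf (flow_of_loops hl)
  push Not at hl
  obtain ⟨e, he⟩ := hl
  let G : SimpleGraph V :=
    { Adj := Adj s d
      symm := ⟨fun a b h => GiAux.adj_symm h⟩
      loopless := ⟨fun a h => h.1 rfl⟩ }
  have hG : ∀ a b, G.Adj a b ↔ Adj s d a b := fun a b => Iff.rfl
  have hg : Girth G.Adj 12 := hgi
  have hd : ∀ a b, G.Adj a b → 3 ≤ G.degree a := by
    intro a b hab
    obtain ⟨z1, z2, z3, a1, a2, a3, n1, n2, n3⟩ := ht a b hab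
    rw [← G.card_neighborFinset_eq_degree]
    have h4 : ({z1, z2, z3} : Finset V) ⊆ G.neighborFinset a := by
      intro w hw
      rw [G.mem_neighborFinset]
      simp only [mem_insert, mem_singleton] at hw
      rcases hw with rfl | rfl | rfl
      · exact a1
      · exact a2
      · exact a3
    calc 3 = ({z1, z2, z3} : Finset V).card := by
          rw [card_insert_of_notMem (by simp [n1, n2]), card_pair n3]
      _ ≤ _ := card_le_card h4
  -- the balls
  let B : ι → Finset V := fun j => univ.filter fun w => InB G (r j) (x j) w ∨ InB G (r j) (y j) w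
  have hB : ∀ j, 126 * M G (B j) ≤ vol (x j) (y j) (r j) * M G univ := by
    intro j
    have hbig : 126 ≤ vol (x j) (y j) (r j) →
        126 * M G (B j) ≤ vol (x j) (y j) (r j) * M G univ := fun h =>
      (Nat.mul_le_mul_left _ (M_mono (subset_univ _))).trans (Nat.mul_le_mul_right _ h)
    by_cases hxy : x j = y j
    · have h5 : vol (x j) (y j) (r j) = 3 * 2 ^ r j - 2 := by unfold vol; rw [if_pos hxy]
      by_cases h6 : r j ≤ 5
      · rw [h5]
        refine ball hg hd h6 (x j) (B j) fun w hw => ?_
        rcases (mem_filter.1 hw).2 with h | h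
        · exact h
        · rw [hxy]; exact h
      · have h7 : 2 ^ 6 ≤ 2 ^ r j := Nat.pow_le_pow_right (by norm_num) (by omega)
        exact hbig (by rw [h5]; omega)
    · have h5 : vol (x j) (y j) (r j) = 4 * 2 ^ r j - 2 := by unfold vol; rw [if_neg hxy]
      by_cases h6 : r j ≤ 4
      · rw [h5]
        have h7 : G.Adj (x j) (y j) := (h1 j).resolve_left hxy
        exact edgeBall hg hd h6 h7 (B j) fun w hw => (mem_filter.1 hw).2
      · have h7 : 2 ^ 5 ≤ 2 ^ r j := Nat.pow_le_pow_right (by norm_num) (by omega)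
        exact hbig (by rw [h5]; omega)
  have hcov : (M G univ : ℝ) ≤ ∑ j, wt j * (M G (B j) : ℝ) := by
    have h4 : ∀ v, (G.degree v : ℝ) ≤ ∑ j, wt j * (if v ∈ B j then (G.degree v : ℝ) else 0) := by
      intro v
      by_cases hv : G.degree v = 0
      · simp [hv]
      obtain ⟨z, hz⟩ := (G.degree_pos_iff_exists_adj v).1 (Nat.pos_of_ne_zero hv)
      have h5 := h2 v (Ord.three_dg ht hz)
      have h6 : (∑ j, if Within s d (r j) v (x j) ∨ Within s d (r j) v (y j) then wt j else 0) ≤
          ∑ j, wt j * (if v ∈ B j then (1 : ℝ) else 0) := by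
        refine sum_le_sum fun j _ => ?_
        by_cases h7 : Within s d (r j) v (x j) ∨ Within s d (r j) v (y j)
        · have h8 : v ∈ B j := by
            refine mem_filter.2 ⟨mem_univ _, ?_⟩
            rcases h7 with hj | hj
            · obtain ⟨p, hp⟩ := hj.walk hG
              exact Or.inl ⟨p.reverse, by rw [SimpleGraph.Walk.length_reverse]; exact hp⟩
            · obtain ⟨p, hp⟩ := hj.walk hG
              exact Or.inr ⟨p.reverse, by rw [SimpleGraph.Walk.length_reverse]; exact hp⟩
          rw [if_pos h7, if_pos h8, mul_one]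
        · rw [if_neg h7]
          refine mul_nonneg (hwt j) ?_
          split_ifs <;> norm_num
      calc (G.degree v : ℝ) = 1 * G.degree v := (one_mul _).symm
        _ ≤ (∑ j, wt j * (if v ∈ B j then (1 : ℝ) else 0)) * G.degree v :=
            mul_le_mul_of_nonneg_right (h5.trans h6) (Nat.cast_nonneg _)
        _ = ∑ j, wt j * (if v ∈ B j then (G.degree v : ℝ) else 0) := by
            rw [sum_mul]
            refine sum_congr rfl fun j _ => ?_
            split_ifs <;> ring
    calc (M G univ : ℝ) = ∑ v, (G.degree v : ℝ) := by unfold M; push_cast; rfl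
      _ ≤ ∑ v, ∑ j, wt j * (if v ∈ B j then (G.degree v : ℝ) else 0) := sum_le_sum fun v _ => h4 v
      _ = ∑ j, ∑ v, wt j * (if v ∈ B j then (G.degree v : ℝ) else 0) := sum_comm
      _ = ∑ j, wt j * (M G (B j) : ℝ) := by
          refine sum_congr rfl fun j _ => ?_
          rw [← mul_sum]
          congr 1
          unfold M
          push_cast
          rw [← sum_filter]
          refine sum_congr ?_ fun _ _ => rfl
          ext v
          simp
  have h6 : 0 < M G univ := by
    have h7 : 0 < G.degree (s e) :=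
      (G.degree_pos_iff_exists_adj _).2 ⟨d e, he, e, Or.inl ⟨rfl, rfl⟩⟩
    exact h7.trans_le (single_le_sum (f := fun w => G.degree w) (fun _ _ => Nat.zero_le _)
      (mem_univ (s e)))
  have h6' : (0 : ℝ) < M G univ := by exact_mod_cast h6
  have h5 : 126 * (M G univ : ℝ) ≤ (∑ j, wt j * (vol (x j) (y j) (r j) : ℝ)) * M G univ := by
    calc 126 * (M G univ : ℝ) ≤ 126 * ∑ j, wt j * (M G (B j) : ℝ) :=
          mul_le_mul_of_nonneg_left hcov (by norm_num)
      _ = ∑ j, wt j * (126 * (M G (B j) : ℝ)) := by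
          rw [mul_sum]
          exact sum_congr rfl fun j _ => by ring
      _ ≤ ∑ j, wt j * ((vol (x j) (y j) (r j) : ℝ) * M G univ) := by
          refine sum_le_sum fun j _ => mul_le_mul_of_nonneg_left ?_ (hwt j)
          exact_mod_cast hB j
      _ = (∑ j, wt j * (vol (x j) (y j) (r j) : ℝ)) * M G univ := by
          rw [sum_mul]
          exact sum_congr rfl fun j _ => by ring
  nlinarith

end

end Pool.Agent.L0h99.BC
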